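import Pool.Agent.Q205.HWc.Bad
import Mathlib.NumberTheory.PrimesCongruentOne

/-! Almost all members of a family `y ^ m = g (x) + t x ^ j` have ordinary reduction at a positive
proportion of the primes. -/

set_option autoImplicit false

namespace Pool.Agent.Q205.HWc

open Polynomial Finset Filter Topology

/-- the member of the family with the parameter `t` has good ordinary reduction at `p` -/
def GoodAt (m n j : ℕ) (g : ℤ[X]) (p : ℕ) (t : ℤ) : Prop :=
  GoodOrd p m n ((C t * X ^ j + g).map (Int.castRingHom (ZMod p)))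

/-- the modulus -/
def modD (m n j : ℕ) : ℕ := m * (max j 1 * max (n - j) 1)

/-- the proportion of the residues at which the Hasse-Witt determinant may vanish -/
noncomputable def prop (m n j : ℕ) : ℝ :=
  (kappaTot m n j (max j 1) (max (n - j) 1) : ℝ) / (modD m n j : ℝ)

/-- the primes up to `x` which are `1` modulo `D` -/
def primesOne (D x : ℕ) : Finset ℕ := (range (x + 1)).filter fun p => p.Prime ∧ p ≡ 1 [MOD D]

theorem goodAt_mod (m n j : ℕ) (g : ℤ[X]) (p : ℕ) (t : ℤ) :
    GoodAt m n j g p t ↔ GoodAt m n j g p (t % p) := by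
  unfold GoodAt
  have : (C t * X ^ j + g).map (Int.castRingHom (ZMod p)) =
      (C (t % p) * X ^ j + g).map (Int.castRingHom (ZMod p)) := by
    have h1 : (Int.castRingHom (ZMod p)) (t % (p : ℤ)) = (Int.castRingHom (ZMod p)) t := by
      rw [eq_intCast, eq_intCast, ZMod.intCast_mod]
    rw [Polynomial.map_add, Polynomial.map_mul, Polynomial.map_C, Polynomial.map_add,
      Polynomial.map_mul, Polynomial.map_C, h1]
  rw [this]

open scoped Classical in
theorem card_range_bad {m n j : ℕ} (hm : 0 < m) (hn : 2 ≤ n) (hj : j ≤ n) (g : ℤ[X])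
    (hg : g.natDegree ≤ n) {p : ℕ} (hp : p.Prime) (hpn : n < p)
    (h0 : 0 < j → ¬ (p : ℤ) ∣ g.coeff 0) (hn' : j < n → ¬ (p : ℤ) ∣ g.coeff n)
    (hpD : p ≡ 1 [MOD modD m n j]) :
    (((range p).filter fun a : ℕ => ¬ GoodAt m n j g p a).card : ℝ) ≤
      prop m n j * p + (n + 1) := by
  haveI : Fact p.Prime := ⟨hp⟩
  obtain ⟨q, hq⟩ : ∃ q, p = m * (max j 1 * max (n - j) 1 * q) + 1 := by
    have h1 : modD m n j ∣ p - 1 := (Nat.modEq_iff_dvd' hp.one_le).mp hpD.symm
    obtain ⟨q, hq⟩ := h1
    refine ⟨q, ?_⟩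
    have h2 := hp.one_le
    have : m * (max j 1 * max (n - j) 1 * q) = modD m n j * q := by
      unfold modD; ring
    rw [this, ← hq]
    omega
  have hb := card_bad (p := p) hm hn hj (J := max j 1) (L := max (n - j) 1) (by omega) (by omega)
    (fun h => by omega) (fun h => by omega) hq hpn (g.map (Int.castRingHom (ZMod p)))
    (natDegree_map_le.trans hg)
    (fun h => by
      rw [coeff_map, eq_intCast, Ne, ZMod.intCast_zmod_eq_zero_iff_dvd]
      exact h0 h)
    (fun h => by
      rw [coeff_map, eq_intCast, Ne, ZMod.intCast_zmod_eq_zero_iff_dvd]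
      exact hn' h)
  have hle : ((range p).filter fun a : ℕ => ¬ GoodAt m n j g p a).card ≤
      (univ.filter fun t : ZMod p => ¬ GoodOrd p m n (C t * X ^ j +
        g.map (Int.castRingHom (ZMod p)))).card := by
    refine card_le_card_of_injOn (fun a : ℕ => (a : ZMod p)) ?_ ?_
    · intro a ha
      rw [mem_coe, mem_filter] at ha ⊢
      refine ⟨mem_univ _, ?_⟩
      have h1 := ha.2
      unfold GoodAt at h1
      rw [Polynomial.map_add, Polynomial.map_mul, Polynomial.map_pow, map_C, map_X] at h1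
      simpa using h1
    · intro a ha b hb hab
      rw [mem_coe, mem_filter, mem_range] at ha hb
      have h1 : (a : ZMod p) = (b : ZMod p) := hab
      rw [ZMod.natCast_eq_natCast_iff'] at h1
      rwa [Nat.mod_eq_of_lt ha.1, Nat.mod_eq_of_lt hb.1] at h1
  have h3 : (((range p).filter fun a : ℕ => ¬ GoodAt m n j g p a).card : ℝ) ≤
      (q : ℝ) * (kappaTot m n j (max j 1) (max (n - j) 1) : ℝ) + (n + 1) := by
    exact_mod_cast hle.trans hb
  refine h3.trans ?_
  have hD : (0 : ℝ) < (modD m n j : ℝ) := by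
    have : 0 < modD m n j := Nat.mul_pos hm (Nat.mul_pos (by omega) (by omega))
    exact_mod_cast this
  have hq2 : (q : ℝ) ≤ p / modD m n j := by
    rw [le_div_iff₀ hD]
    have : q * modD m n j ≤ p := by
      rw [hq]
      unfold modD
      have : q * (m * (max j 1 * max (n - j) 1)) = m * (max j 1 * max (n - j) 1 * q) := by ring
      omega
    exact_mod_cast this
  have hk : (0 : ℝ) ≤ (kappaTot m n j (max j 1) (max (n - j) 1) : ℝ) := by positivity
  have h4 := mul_le_mul_of_nonneg_right hq2 hk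
  have e : (p : ℝ) / modD m n j * (kappaTot m n j (max j 1) (max (n - j) 1) : ℝ) = prop m n j * p := by
    unfold prop
    ring
  linarith

open scoped Classical in
/-- the explicit form -/
theorem explicit {m n j : ℕ} (hm : 0 < m) (hn : 2 ≤ n) (hj : j ≤ n) (g : ℤ[X])
    (hg : g.natDegree ≤ n) (h0 : 0 < j → g.coeff 0 ≠ 0) (hn' : j < n → g.coeff n ≠ 0)
    (ε : ℝ) (hε : 0 < ε) :
    ∃ P0 : ℕ, ∀ (x T : ℕ) (A : ℤ),
      (((Ico A (A + T)).filter fun t => (prop m n j + ε) *
        (((primesOne (modD m n j) x).filter fun p => P0 < p).card : ℝ) <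
        ((((primesOne (modD m n j) x).filter fun p => P0 < p).filter
          fun p => ¬ GoodAt m n j g p t).card : ℝ)).card : ℝ) *
      ((ε / 2) ^ 2 * (((primesOne (modD m n j) x).filter fun p => P0 < p).card : ℝ) ^ 2) ≤
      T * (((primesOne (modD m n j) x).filter fun p => P0 < p).card : ℝ) + (x : ℝ) ^ 2 *
        (((primesOne (modD m n j) x).filter fun p => P0 < p).card : ℝ) ^ 2 := by
  obtain ⟨P1, hP1⟩ := exists_nat_gt (2 * ((n : ℝ) + 1) / ε)
  refine ⟨P1 + n + (g.coeff 0).natAbs + (g.coeff n).natAbs, fun x T A => ?_⟩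
  set P0 := P1 + n + (g.coeff 0).natAbs + (g.coeff n).natAbs with hP0
  set P := (primesOne (modD m n j) x).filter fun p => P0 < p with hP
  have h := Pool.Agent.Q205.SM.exceptional P x (fun p hp => by
      rw [hP, mem_filter, primesOne, mem_filter, mem_range] at hp
      exact ⟨hp.1.2.1, by omega⟩) (fun p t => ¬ GoodAt m n j g p t)
    (fun p _ t => not_congr (goodAt_mod m n j g p t)) (prop m n j + ε / 2) ?_ (ε / 2) (by positivity) A T
  · have e : prop m n j + ε / 2 + ε / 2 = prop m n j + ε := by ring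
    rw [e] at h
    convert h
  · intro p hp
    rw [hP, mem_filter, primesOne, mem_filter, mem_range] at hp
    obtain ⟨⟨_, hpp, hpD⟩, hpP⟩ := hp
    have h1 := card_range_bad hm hn hj g hg hpp (by omega)
      (fun h hd => by
        have h2 := Int.natAbs_dvd_natAbs.mpr hd
        have h3 := Nat.le_of_dvd (Int.natAbs_pos.mpr (h0 h)) h2
        rw [Int.natAbs_natCast] at h3
        omega)
      (fun h hd => by
        have h2 := Int.natAbs_dvd_natAbs.mpr hd
        have h3 := Nat.le_of_dvd (Int.natAbs_pos.mpr (hn' h)) h2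
        rw [Int.natAbs_natCast] at h3
        omega) hpD
    refine le_trans (le_of_eq ?_) (h1.trans ?_)
    · congr!
    have h2 : (P1 : ℝ) < p := by
      have : P1 < p := by omega
      exact_mod_cast this
    have h3 : 2 * ((n : ℝ) + 1) / ε < p := hP1.trans h2
    rw [div_lt_iff₀ hε] at h3
    nlinarith

theorem card_primes_tendsto (D : ℕ) (hD : 0 < D) (P0 : ℕ) :
    Tendsto (fun x : ℕ => (((primesOne D x).filter fun p => P0 < p).card : ℝ)) atTop atTop := by
  apply tendsto_natCast_atTop_atTop.comp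
  rw [tendsto_atTop]
  intro b
  have hinf : {p : ℕ | p.Prime ∧ p ≡ 1 [MOD D]}.Infinite := Nat.infinite_setOfPred_prime_modEq_one hD.ne'
  have hinf2 : ({p : ℕ | p.Prime ∧ p ≡ 1 [MOD D]} \ (Set.Iic P0)).Infinite :=
    hinf.diff (Set.finite_Iic P0)
  obtain ⟨s, hs, hcard⟩ := hinf2.exists_subset_card_eq b
  filter_upwards [eventually_ge_atTop (s.sup id)] with x hx
  rw [← hcard]
  apply card_le_card
  intro p hp
  have h1 := hs hp
  rw [mem_filter, primesOne, mem_filter, mem_range]
  have h2 : p ≤ s.sup id := le_sup (f := id) hp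
  simp only [Set.mem_diff, Set.mem_setOf_eq, Set.mem_Iic, not_le] at h1
  exact ⟨⟨by omega, h1.1⟩, h1.2⟩

open scoped Classical in
/-- **almost all members of the family** -/
theorem almost {m n j : ℕ} (hm : 0 < m) (hn : 2 ≤ n) (hj : j ≤ n) (g : ℤ[X])
    (hg : g.natDegree ≤ n) (h0 : 0 < j → g.coeff 0 ≠ 0) (hn' : j < n → g.coeff n ≠ 0)
    (ε : ℝ) (hε : 0 < ε) (A : ℕ → ℤ) (x : ℕ → ℕ) (hx : Tendsto x atTop atTop)
    (hxT : Tendsto (fun T : ℕ => (x T : ℝ) ^ 2 / T) atTop (𝓝 0)) :
    Tendsto (fun T : ℕ => (((Ico (A T) (A T + T)).filter fun t =>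
      (((primesOne (modD m n j) (x T)).filter fun p => GoodAt m n j g p t).card : ℝ) <
        (1 - prop m n j - ε) * ((primesOne (modD m n j) (x T)).card : ℝ)).card : ℝ) / T)
      atTop (𝓝 0) := by
  obtain ⟨P0, hP0⟩ := explicit hm hn hj g hg h0 hn' (ε / 2) (by positivity)
  have hD : 0 < modD m n j := Nat.mul_pos hm (Nat.mul_pos (by omega) (by omega))
  have hcard := (card_primes_tendsto (modD m n j) hD P0).comp hx
  set B : ℕ → Finset ℕ := fun T => (primesOne (modD m n j) (x T)).filter fun p => P0 < p with hB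
  have hlim : Tendsto (fun T : ℕ => (((B T).card : ℝ)⁻¹ + (x T : ℝ) ^ 2 / T) * ((ε / 4) ^ 2)⁻¹)
      atTop (𝓝 0) := by
    have h1 : Tendsto (fun T : ℕ => ((B T).card : ℝ)⁻¹) atTop (𝓝 0) := hcard.inv_tendsto_atTop
    have h2 := (h1.add hxT).mul_const ((ε / 4) ^ 2)⁻¹
    simpa using h2
  refine squeeze_zero' (Eventually.of_forall fun T => by positivity) ?_ hlim
  have hc1 := hcard.eventually (eventually_ge_atTop (1 : ℝ))
  have hc2 := hcard.eventually (eventually_ge_atTop ((2 / ε) * (P0 + 1)))
  filter_upwards [hc1, hc2, eventually_gt_atTop 0] with T h1 h2 hT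
  have h1' : (1 : ℝ) ≤ ((B T).card : ℝ) := h1
  have h2' : (2 / ε) * (P0 + 1) ≤ ((B T).card : ℝ) := h2
  have hTr : (0 : ℝ) < T := by exact_mod_cast hT
  have hBpos : (0 : ℝ) < ((B T).card : ℝ) := by linarith
  -- all primes and the large ones
  have hBle : (B T).card ≤ (primesOne (modD m n j) (x T)).card := card_filter_le _ _
  have hBge : (primesOne (modD m n j) (x T)).card ≤ (B T).card + (P0 + 1) := by
    have h3 : primesOne (modD m n j) (x T) ⊆ B T ∪ range (P0 + 1) := by
      intro p hp
      rw [mem_union]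
      by_cases h : P0 < p
      · exact Or.inl (mem_filter.mpr ⟨hp, h⟩)
      · exact Or.inr (mem_range.mpr (by omega))
    have h4 := (card_le_card h3).trans (card_union_le _ _)
    rwa [card_range] at h4
  have hBge' : ((primesOne (modD m n j) (x T)).card : ℝ) ≤ (B T).card + (P0 + 1) := by
    exact_mod_cast hBge
  have hBle' : ((B T).card : ℝ) ≤ ((primesOne (modD m n j) (x T)).card : ℝ) := by exact_mod_cast hBle
  have hsub : ((Ico (A T) (A T + T)).filter fun t =>
      (((primesOne (modD m n j) (x T)).filter fun p => GoodAt m n j g p t).card : ℝ) <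
        (1 - prop m n j - ε) * ((primesOne (modD m n j) (x T)).card : ℝ)) ⊆
      (Ico (A T) (A T + T)).filter fun t => (prop m n j + ε / 2) * ((B T).card : ℝ) <
        (((B T).filter fun p => ¬ GoodAt m n j g p t).card : ℝ) := by
    intro t ht
    rw [mem_filter] at ht ⊢
    refine ⟨ht.1, ?_⟩
    by_contra hcon
    rw [not_lt] at hcon
    have h3 : (((B T).filter fun p => GoodAt m n j g p t).card : ℝ) +
        (((B T).filter fun p => ¬ GoodAt m n j g p t).card : ℝ) = (B T).card := by
      exact_mod_cast card_filter_add_card_filter_not (s := B T) (fun p => GoodAt m n j g p t)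
    have h4 : (((B T).filter fun p => GoodAt m n j g p t).card : ℝ) ≤
        (((primesOne (modD m n j) (x T)).filter fun p => GoodAt m n j g p t).card : ℝ) := by
      exact_mod_cast card_le_card (filter_subset_filter _ (filter_subset _ _))
    have h5 := ht.2
    have hprop : 0 ≤ prop m n j := by unfold prop; positivity
    set a : ℝ := ((primesOne (modD m n j) (x T)).card : ℝ) with ha
    set b : ℝ := ((B T).card : ℝ) with hb
    have h6 : (1 - prop m n j - ε / 2) * b < (1 - prop m n j - ε) * a := by linarith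
    have h7 : (P0 + 1 : ℝ) ≤ ε / 2 * b := by
      have := mul_le_mul_of_nonneg_left h2' (show (0 : ℝ) ≤ ε / 2 by positivity)
      have e : ε / 2 * (2 / ε * ((P0 : ℝ) + 1)) = P0 + 1 := by field_simp
      linarith
    nlinarith
  have hex := hP0 (x T) T (A T)
  have hcardle : (((Ico (A T) (A T + T)).filter fun t =>
      (((primesOne (modD m n j) (x T)).filter fun p => GoodAt m n j g p t).card : ℝ) <
        (1 - prop m n j - ε) * ((primesOne (modD m n j) (x T)).card : ℝ)).card : ℝ) ≤
      (((Ico (A T) (A T + T)).filter fun t => (prop m n j + ε / 2) * ((B T).card : ℝ) <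
        (((B T).filter fun p => ¬ GoodAt m n j g p t).card : ℝ)).card : ℝ) := by
    exact_mod_cast card_le_card hsub
  set N : ℝ := (((Ico (A T) (A T + T)).filter fun t => (prop m n j + ε / 2) * ((B T).card : ℝ) <
        (((B T).filter fun p => ¬ GoodAt m n j g p t).card : ℝ)).card : ℝ) with hN
  have hex' : N * ((ε / 2 / 2) ^ 2 * ((B T).card : ℝ) ^ 2) ≤
      T * ((B T).card : ℝ) + (x T : ℝ) ^ 2 * ((B T).card : ℝ) ^ 2 := hex
  rw [div_le_iff₀ hTr]
  refine hcardle.trans ?_
  have e1 : ε / 2 / 2 = ε / 4 := by ring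
  rw [e1] at hex'
  have hpos : (0 : ℝ) < (ε / 4) ^ 2 * ((B T).card : ℝ) ^ 2 := by positivity
  have h8 : N ≤ (T * ((B T).card : ℝ) + (x T : ℝ) ^ 2 * ((B T).card : ℝ) ^ 2) /
      ((ε / 4) ^ 2 * ((B T).card : ℝ) ^ 2) := by
    rw [le_div_iff₀ hpos]
    exact hex'
  refine h8.trans (le_of_eq ?_)
  field_simp

end Pool.Agent.Q205.HWc
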