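import Pool.Agent.Q205.HWc.Generic
import Pool.Agent.Y162.HW.Spread

/-! Reduction modulo `p` of the curves `y ^ m = g (x) + t x ^ j` with a transcendental coefficient. -/

set_option autoImplicit false

open Polynomial

namespace Pool.Agent.Q205.HWc

open Pool.Agent.Y162.HW

/-- the family `y ^ m = g (x) + T_s x ^ j` over `R[T]` -/
noncomputable def fam {R σ : Type*} [CommRing R] (s : σ) (j : ℕ) (g : R[X]) :
    (MvPolynomial σ R)[X] :=
  C (MvPolynomial.X s : MvPolynomial σ R) * X ^ j + g.map MvPolynomial.C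

lemma fam_map {R S σ : Type*} [CommRing R] [CommRing S] (s : σ) (j : ℕ) (g : R[X])
    (φ : R →+* S) : (fam s j g).map (MvPolynomial.map φ) = fam s j (g.map φ) := by
  unfold fam
  rw [Polynomial.map_add, Polynomial.map_mul, Polynomial.map_pow, map_C, map_X, Polynomial.map_map,
    Polynomial.map_map, MvPolynomial.map_X]
  congr 2
  ext x : 1
  simp

lemma fam_eval {R S σ : Type*} [CommRing R] [CommRing S] (s : σ) (j : ℕ) (g : R[X])
    (φ : R →+* S) (t : σ → S) :
    (fam s j g).map (MvPolynomial.eval₂Hom φ t) = C (t s) * X ^ j + g.map φ := by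
  unfold fam
  rw [Polynomial.map_add, Polynomial.map_mul, Polynomial.map_pow, map_C, map_X, Polynomial.map_map]
  have e : (MvPolynomial.eval₂Hom φ t).comp MvPolynomial.C = φ := by
    ext x : 1
    simp
  rw [e, MvPolynomial.eval₂Hom_X']

lemma det_map {R S : Type*} [CommRing R] [CommRing S] (p m a g : ℕ) (φ : R →+* S) (f : R[X]) :
    φ (hasseWitt p m a g f).det = (hasseWitt p m a g (f.map φ)).det := by
  rw [RingHom.map_det]
  congr 1
  ext i j
  change φ ((X ^ ((j : ℕ) + 1) * f ^ (a * ((p - 1) / m))).coeff (p * ((i : ℕ) + 1))) =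
    (X ^ ((j : ℕ) + 1) * (f.map φ) ^ (a * ((p - 1) / m))).coeff (p * ((i : ℕ) + 1))
  rw [← map_X φ, ← Polynomial.map_pow, ← Polynomial.map_pow, ← Polynomial.map_mul, coeff_map]

/-- the generic member of the family is ordinary -/
lemma generic_fam {K σ : Type*} [Field K] (p : ℕ) [Fact p.Prime] [CharP K p]
    (m n j a q J L : ℕ)
    (hm : 0 < m) (hn : 2 ≤ n) (hj : j ≤ n) (ha0 : 0 < a) (ha : a < m) (hJ0 : 0 < J) (hL0 : 0 < L)
    (hJ : 0 < j → J = j) (hL : j < n → L = n - j)
    (hp : p = m * (J * L * q) + 1) (hpn : n ≤ p) (g : K[X]) (hg : g.natDegree ≤ n)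
    (h0 : 0 < j → g.coeff 0 ≠ 0) (hn' : j < n → g.coeff n ≠ 0) (s : σ) :
    (hasseWitt p m a (genusPart m n a) (fam s j g)).det ≠ 0 := by
  intro hz
  apply generic_det p m n j a q J L hm hn hj ha0 ha hJ0 hL0 hJ hL hp hpn g hg h0 hn'
  have h1 : C (X : K[X]) * X ^ j + g.map C =
      (fam s j g).map (MvPolynomial.eval₂Hom (C : K →+* K[X]) (fun _ : σ => (X : K[X]))) := by
    rw [fam_eval]
  rw [h1, ← det_map, hz, map_zero]

/-- the modulus -/
def modulus {ι : Type*} [Fintype ι] (m n j : ι → ℕ) : ℕ :=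
  ∏ i, (m i * (max (j i) 1 * max (n i - j i) 1))

lemma exists_q {ι : Type*} [Fintype ι] (m n j : ι → ℕ) {p : ℕ} (hp0 : 1 ≤ p)
    (hp : p ≡ 1 [MOD modulus m n j]) (i : ι) :
    ∃ q, p = m i * (max (j i) 1 * max (n i - j i) 1 * q) + 1 := by
  have h1 : modulus m n j ∣ p - 1 := (Nat.modEq_iff_dvd' hp0).mp hp.symm
  have h2 : m i * (max (j i) 1 * max (n i - j i) 1) ∣ p - 1 :=
    (Finset.dvd_prod_of_mem (fun i => m i * (max (j i) 1 * max (n i - j i) 1))
      (Finset.mem_univ i)).trans h1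
  obtain ⟨q, hq⟩ := h2
  refine ⟨q, ?_⟩
  have : m i * (max (j i) 1 * max (n i - j i) 1 * q) = m i * (max (j i) 1 * max (n i - j i) 1) * q := by
    ring
  rw [this, ← hq]
  omega

/-- For a finitely generated domain of characteristic zero and all large `p` there is a prime of
`R[T]` over `p` which does not contain the Hasse-Witt determinants. -/
lemma exists_prime {R σ ι : Type*} [Fintype ι] [CommRing R] [IsDomain R] [CharZero R]
    [Algebra.FiniteType ℤ R] (m n j : ι → ℕ) (hm : ∀ i, 0 < m i) (hn : ∀ i, 2 ≤ n i)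
    (hj : ∀ i, j i ≤ n i) (s : ι → σ) (g : ι → R[X]) (hg : ∀ i, (g i).natDegree ≤ n i)
    (h0 : ∀ i, 0 < j i → (g i).coeff 0 ≠ 0) (hn' : ∀ i, j i < n i → (g i).coeff (n i) ≠ 0) :
    ∃ N : ℕ, ∀ p : ℕ, N ≤ p → p.Prime → p ≡ 1 [MOD modulus m n j] →
      ∃ P : Ideal (MvPolynomial σ R), P.IsPrime ∧
      (p : MvPolynomial σ R) ∈ P ∧ ∀ i a, 0 < a → a < m i →
        (hasseWitt p (m i) a (genusPart (m i) (n i) a) (fam (s i) (j i) (g i))).det ∉ P := by
  classical
  have hNoeth : IsNoetherianRing R := Algebra.FiniteType.isNoetherianRing ℤ R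
  obtain ⟨N1, hN1⟩ := exists_prime_over (R := R)
  set δ : R := ∏ i, ((if 0 < j i then (g i).coeff 0 else 1) *
    (if j i < n i then (g i).coeff (n i) else 1)) with hδ
  have hδ0 : δ ≠ 0 := by
    rw [hδ, Finset.prod_ne_zero_iff]
    intro i _
    apply mul_ne_zero
    · split_ifs with h
      · exact h0 i h
      · exact one_ne_zero
    · split_ifs with h
      · exact hn' i h
      · exact one_ne_zero
  obtain ⟨N2, hN2⟩ := large_primes δ hδ0
  refine ⟨max N1 (max N2 (∑ i, n i)), fun p hp hpp hpD => ?_⟩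
  have hpf : Fact p.Prime := ⟨hpp⟩
  obtain ⟨Q, hQ, hpQ⟩ := hN1 p ((le_max_left _ _).trans hp) hpp
  obtain ⟨P, hP, hPQ⟩ := Ideal.exists_minimalPrimes_le
    (show Ideal.span {(p : R)} ≤ Q by rw [Ideal.span_le]; simpa using hpQ)
  have hPp : P.IsPrime := hP.1.1
  have hδP := hN2 p ((le_max_left _ _).trans ((le_max_right _ _).trans hp)) hpp P hP
  have hpP : (p : R) ∈ P := hP.1.2 (Ideal.subset_span rfl)
  let K := FractionRing (R ⧸ P)
  let ψ : R →+* K := (algebraMap (R ⧸ P) K).comp (Ideal.Quotient.mk P)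
  have hψinj : Function.Injective (algebraMap (R ⧸ P) K) := IsFractionRing.injective _ _
  have hψ : ∀ x, ψ x = 0 ↔ x ∈ P := by
    intro x
    change (algebraMap (R ⧸ P) K) (Ideal.Quotient.mk P x) = 0 ↔ _
    rw [map_eq_zero_iff _ hψinj, Ideal.Quotient.eq_zero_iff_mem]
  have hK0 : ((p : ℕ) : K) = 0 := by
    have := (hψ (p : R)).2 hpP
    rwa [map_natCast] at this
  have : CharP K p := by
    obtain ⟨q, hq⟩ := CharP.exists K
    have h1 : q ∣ p := (CharP.cast_eq_zero_iff K q p).1 hK0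
    rcases (Nat.dvd_prime hpp).1 h1 with h2 | h2
    · subst h2
      exact absurd (CharP.char_ne_one K 1 rfl) (by simp)
    · rwa [← h2]
  have hδi : ∀ i, ((if 0 < j i then (g i).coeff 0 else 1) *
    (if j i < n i then (g i).coeff (n i) else 1)) ∉ P := fun i h =>
      hδP (P.mem_of_dvd (Finset.dvd_prod_of_mem
        (fun i => ((if 0 < j i then (g i).coeff 0 else 1) *
          (if j i < n i then (g i).coeff (n i) else 1))) (Finset.mem_univ i)) h)
  refine ⟨RingHom.ker (MvPolynomial.map ψ : MvPolynomial σ R →+* MvPolynomial σ K),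
    RingHom.ker_isPrime _, ?_, fun i a ha0 ha => ?_⟩
  · rw [RingHom.mem_ker, map_natCast]
    have : ((p : ℕ) : MvPolynomial σ K) = MvPolynomial.C ((p : ℕ) : K) := by simp
    rw [this, hK0, MvPolynomial.C_0]
  · obtain ⟨q, hq⟩ := exists_q m n j hpp.one_le hpD i
    have hni : n i ≤ p := (Finset.single_le_sum (f := n) (fun _ _ => Nat.zero_le _)
      (Finset.mem_univ i)).trans (((le_max_right _ _).trans (le_max_right _ _)).trans hp)
    have hdet := generic_fam (K := K) p (m i) (n i) (j i) a q (max (j i) 1) (max (n i - j i) 1)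
      (hm i) (hn i) (hj i) ha0 ha (by omega) (by omega) (fun h => by omega) (fun h => by omega)
      hq hni ((g i).map ψ) (natDegree_map_le.trans (hg i))
      (fun h => by
        rw [coeff_map]
        intro hz
        apply hδi i
        rw [if_pos h]
        exact Ideal.mul_mem_right _ P ((hψ _).1 hz))
      (fun h => by
        rw [coeff_map]
        intro hz
        apply hδi i
        rw [if_pos h]
        exact Ideal.mul_mem_left P _ ((hψ _).1 hz)) (s i)
    rw [RingHom.mem_ker, det_map, fam_map]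
    exact hdet

theorem main {k σ ι : Type*} [Finite σ] [Fintype ι] [Field k] [CharZero k] (m n j : ι → ℕ)
    (hm : ∀ i, 0 < m i) (hn : ∀ i, 2 ≤ n i) (hj : ∀ i, j i ≤ n i) (g : ι → k[X])
    (hg : ∀ i, (g i).natDegree ≤ n i)
    (h0 : ∀ i, 0 < j i → (g i).coeff 0 ≠ 0) (hn' : ∀ i, j i < n i → (g i).coeff (n i) ≠ 0)
    (t : σ → k)
    (ht : AlgebraicIndependent (IntermediateField.adjoin ℚ (⋃ i, Set.range (g i).coeff)) t)
    (s : ι → σ) (A : Subalgebra ℤ k) (hA : A.FG) (F : ι → A[X])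
    (hF : ∀ i, (F i).map (algebraMap A k) = C (t (s i)) * X ^ (j i) + g i)
    (c : A) (hc : c ≠ 0) :
    ∃ N : ℕ, ∀ p : ℕ, N ≤ p → p.Prime → p ≡ 1 [MOD modulus m n j] →
      ∃ M : Ideal A, M.IsMaximal ∧ (p : A) ∈ M ∧ c ∉ M ∧
      ∀ i a, 0 < a → a < m i → (hasseWitt p (m i) a (genusPart (m i) (n i) a)
        ((F i).map (Ideal.Quotient.mk M))).det ≠ 0 := by
  classical
  -- the rings
  set S : Set k := ⋃ i, Set.range (g i).coeff with hS
  have hSfin : S.Finite := by
    refine Set.finite_iUnion fun i => ?_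
    refine ((g i).coeffs.finite_toSet.union (Set.finite_singleton (0 : k))).subset ?_
    rintro x ⟨e, rfl⟩
    by_cases h : (g i).coeff e = 0
    · exact Or.inr h
    · exact Or.inl (coeff_mem_coeffs h)
  let A0 : Subalgebra ℤ k := Algebra.adjoin ℤ S
  have hA0 : A0.FG := Subalgebra.fg_def.2 ⟨S, hSfin, rfl⟩
  let B : Subalgebra ℤ k := A ⊔ (A0 ⊔ Algebra.adjoin ℤ (Set.range t))
  have hB : B.FG :=
    hA.sup (hA0.sup (Subalgebra.fg_def.2 ⟨Set.range t, Set.finite_range t, rfl⟩))
  have hAB : A ≤ B := le_sup_left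
  have hA0B : A0 ≤ B := le_sup_left.trans le_sup_right
  have htB : ∀ i, t i ∈ B := fun i =>
    (le_sup_right.trans le_sup_right : Algebra.adjoin ℤ (Set.range t) ≤ B)
      (Algebra.subset_adjoin ⟨i, rfl⟩)
  have hgA0 : ∀ i e, (g i).coeff e ∈ A0 := fun i e =>
    Algebra.subset_adjoin (Set.mem_iUnion.2 ⟨i, e, rfl⟩)
  have hlift0 : ∀ i, ∃ g0 : A0[X], g0.map (algebraMap A0 k) = g i := by
    intro i
    have h1 : g i ∈ lifts (algebraMap A0 k) := by
      rw [lifts_iff_coeff_lifts]
      intro e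
      exact ⟨⟨_, hgA0 i e⟩, rfl⟩
    exact (mem_lifts _).mp h1
  choose g0 hg0 using hlift0
  have hinjA0 : Function.Injective (algebraMap A0 k) := Subtype.val_injective
  have hfA0 : Algebra.FiniteType ℤ A0 := (Subalgebra.fg_iff_finiteType _).mp hA0
  have hfB : Algebra.FiniteType ℤ B := (Subalgebra.fg_iff_finiteType _).mp hB
  have hfA : Algebra.FiniteType ℤ A := (Subalgebra.fg_iff_finiteType _).mp hA
  -- the map `A0[T] → B`
  let i0 : A0 →+* B := (Subalgebra.inclusion hA0B).toRingHom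
  let f : MvPolynomial σ A0 →+* B := MvPolynomial.eval₂Hom i0 (fun i => ⟨t i, htB i⟩)
  have hfk : ∀ P : MvPolynomial σ A0, ((f P : B) : k) = MvPolynomial.aeval t P := by
    intro P
    change (algebraMap B k) (MvPolynomial.eval₂Hom i0 (fun i => ⟨t i, htB i⟩) P) = _
    rw [MvPolynomial.map_eval₂Hom]
    rfl
  have htr : Function.Injective (MvPolynomial.aeval t : MvPolynomial σ A0 →ₐ[A0] k) := by
    have hle : ∀ x : A0, (x : k) ∈ IntermediateField.adjoin ℚ S := by
      intro x
      have h1 : A0 ≤ (IntermediateField.adjoin ℚ S).toSubalgebra.restrictScalars ℤ :=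
        Algebra.adjoin_le (IntermediateField.subset_adjoin ℚ _)
      exact h1 x.2
    let j : A0 →+* IntermediateField.adjoin ℚ S :=
      (algebraMap A0 k).codRestrict _ (fun x => hle x)
    have hj : Function.Injective j := by
      intro x y h
      have := congrArg Subtype.val h
      exact Subtype.ext this
    have h2 : ∀ P : MvPolynomial σ A0,
        MvPolynomial.aeval t P = MvPolynomial.aeval t (MvPolynomial.map j P) := by
      intro P
      rw [MvPolynomial.aeval_def, MvPolynomial.aeval_def, MvPolynomial.eval₂_map]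
      rfl
    intro P Q hPQ
    rw [h2, h2] at hPQ
    exact MvPolynomial.map_injective j hj (ht hPQ)
  have hf : Function.Injective f := by
    intro P Q h
    have h1 := congrArg Subtype.val h
    rw [hfk, hfk] at h1
    exact htr h1
  have hft : f.FiniteType := by
    have h1 : (f.comp (algebraMap ℤ (MvPolynomial σ A0))).FiniteType := by
      have : (algebraMap ℤ B).FiniteType := RingHom.finiteType_algebraMap.mpr inferInstance
      rwa [show algebraMap ℤ B = f.comp (algebraMap ℤ (MvPolynomial σ A0)) from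
        RingHom.ext_int _ _] at this
    exact RingHom.FiniteType.of_comp_finiteType h1
  have hJ : IsJacobsonRing A := by
    have := jac_int
    exact isJacobsonRing_of_finiteType (A := ℤ)
  have hNoeth : IsNoetherianRing A0 := Algebra.FiniteType.isNoetherianRing ℤ A0
  let iA : A →+* B := (Subalgebra.inclusion hAB).toRingHom
  have hiA : Function.Injective iA := Subalgebra.inclusion_injective hAB
  have hc' : iA c ≠ 0 := by rwa [map_ne_zero_iff _ hiA]
  obtain ⟨c0, hc0, hlift⟩ := chev f hf hft (iA c) hc'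
  obtain ⟨N1, hN1⟩ := large_primes c0 hc0
  obtain ⟨N2, hN2⟩ := exists_prime m n j hm hn hj s g0
    (fun i => by
      rw [← natDegree_map_eq_of_injective hinjA0 (g0 i), hg0]
      exact hg i)
    (fun i h hz => h0 i h (by rw [← hg0, coeff_map, hz, map_zero]))
    (fun i h hz => hn' i h (by rw [← hg0 i, coeff_map, hz, map_zero]))
  have hFB : ∀ i, (F i).map iA = (fam (s i) (j i) (g0 i)).map f := by
    intro i
    apply map_injective (algebraMap B k) Subtype.val_injective
    rw [Polynomial.map_map, Polynomial.map_map]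
    have e1 : (algebraMap B k).comp iA = algebraMap A k := rfl
    have e2 : (algebraMap B k).comp f = MvPolynomial.eval₂Hom (algebraMap A0 k) t := by
      refine RingHom.ext fun P => ?_
      exact hfk P
    rw [e1, e2, hF, fam_eval, hg0]
  refine ⟨max N1 N2, fun p hp hpp hpD => ?_⟩
  obtain ⟨P', hP', hpP', hdP'⟩ := hN2 p ((le_max_right _ _).trans hp) hpp hpD
  obtain ⟨P, hP, hPP'⟩ := Ideal.exists_minimalPrimes_le
    (show Ideal.span {(p : MvPolynomial σ A0)} ≤ P' by rw [Ideal.span_le]; simpa using hpP')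
  have hPp : P.IsPrime := hP.1.1
  have hc0P := hN1 p ((le_max_left _ _).trans hp) hpp P hP
  have hdP : ∀ i a, 0 < a → a < m i → (hasseWitt p (m i) a (genusPart (m i) (n i) a)
      (fam (s i) (j i) (g0 i))).det ∉ P := fun i a h1 h2 h => hdP' i a h1 h2 (hPP' h)
  obtain ⟨Q, hQ, hQP, hcQ⟩ := hlift P hPp hc0P
  let M0 : Ideal A := Q.comap iA
  have hM0 : M0.IsPrime := Ideal.comap_isPrime iA Q
  have hpM0 : (p : A) ∈ M0 := by
    change iA (p : A) ∈ Q
    have h1 : (p : MvPolynomial σ A0) ∈ Q.comap f := by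
      rw [hQP]; exact hP.1.2 (Ideal.subset_span rfl)
    rw [Ideal.mem_comap, map_natCast] at h1
    rwa [map_natCast]
  have hdM0 : ∀ i a, 0 < a → a < m i →
      (hasseWitt p (m i) a (genusPart (m i) (n i) a) (F i)).det ∉ M0 := by
    intro i a h1 h2 h
    apply hdP i a h1 h2
    rw [← hQP, Ideal.mem_comap, det_map, ← hFB, ← det_map]
    exact h
  have hcM0 : c ∉ M0 := hcQ
  have hprod : c * ∏ i, ∏ a ∈ Finset.Ioo 0 (m i),
      (hasseWitt p (m i) a (genusPart (m i) (n i) a) (F i)).det ∉ M0 := by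
    intro hm
    rcases hM0.mem_or_mem hm with h1 | h1
    · exact hcM0 h1
    · obtain ⟨i, -, hi⟩ := (hM0.prod_mem_iff).1 h1
      obtain ⟨a, ha, hia⟩ := (hM0.prod_mem_iff).1 hi
      rw [Finset.mem_Ioo] at ha
      exact hdM0 i a ha.1 ha.2 hia
  have hjac : M0.jacobson = M0 := isJacobsonRing_iff_prime_eq.mp hJ M0 hM0
  rw [← hjac, Ideal.jacobson, Submodule.mem_sInf] at hprod
  push Not at hprod
  obtain ⟨M, ⟨hM0M, hM⟩, hMa⟩ := hprod
  refine ⟨M, hM, hM0M hpM0, fun h1 => hMa (Ideal.mul_mem_right _ M h1), fun i a ha0 ha => ?_⟩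
  rw [← det_map]
  intro h1
  refine hMa (Ideal.mul_mem_left M _ ?_)
  have h2 : (∏ a ∈ Finset.Ioo 0 (m i),
      (hasseWitt p (m i) a (genusPart (m i) (n i) a) (F i)).det) ∈ M :=
    Ideal.mem_of_dvd M (Finset.dvd_prod_of_mem
      (fun a => (hasseWitt p (m i) a (genusPart (m i) (n i) a) (F i)).det)
      (Finset.mem_Ioo.mpr ⟨ha0, ha⟩)) (Ideal.Quotient.eq_zero_iff_mem.1 h1)
  exact Ideal.mem_of_dvd M (Finset.dvd_prod_of_mem
    (fun i => ∏ a ∈ Finset.Ioo 0 (m i),
      (hasseWitt p (m i) a (genusPart (m i) (n i) a) (F i)).det) (Finset.mem_univ i)) h2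

end Pool.Agent.Q205.HWc
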