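import Pool.Agent.Q205.HWc.Degree
import Pool.Agent.Q205.HWc.Spread
import Pool.Agent.Q205.SM.Second

/-! Residues of the parameter at which the reduction of `y ^ m = g (x) + t x ^ j` is not ordinary. -/

set_option autoImplicit false

namespace Pool.Agent.Q205.HWc

open Polynomial Finset

/-- over the field with `p` elements the curve `y ^ m = f (x)` is smooth of the right degree and
ordinary: `f` has degree `n` and is separable, and all blocks of the Hasse-Witt matrix are invertible -/
def GoodOrd (p m n : ℕ) (f : (ZMod p)[X]) : Prop :=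
  f.natDegree = n ∧ f.Separable ∧ ∀ a, 0 < a → a < m → (hasseWitt p m a (genusPart m n a) f).det ≠ 0

/-- the sum of the bounds for all blocks -/
def kappaTot (m n j J L : ℕ) : ℕ := ∑ a ∈ Ioo 0 m, kappa m n j a J L

section

variable {p : ℕ} [hp : Fact p.Prime]

theorem card_zero {m n j q J L : ℕ}
    (hm : 0 < m) (hn : 2 ≤ n) (hj : j ≤ n) (hJ0 : 0 < J) (hL0 : 0 < L)
    (hJ : 0 < j → J = j) (hL : j < n → L = n - j)
    (hpq : p = m * (J * L * q) + 1) (hpn : n ≤ p) (g : (ZMod p)[X]) (hg : g.natDegree ≤ n)
    (h0 : 0 < j → g.coeff 0 ≠ 0) (hn' : j < n → g.coeff n ≠ 0) (a : ℕ) (ha0 : 0 < a) (ha : a < m) :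
    (univ.filter fun t : ZMod p =>
      (hasseWitt p m a (genusPart m n a) (C t * X ^ j + g)).det = 0).card ≤ q * kappa m n j a J L := by
  classical
  set Δ : (ZMod p)[X] := (hasseWitt p m a (genusPart m n a)
    (C (X : (ZMod p)[X]) * X ^ j + g.map C)).det with hΔ
  have hne : Δ ≠ 0 := generic_det p m n j a q J L hm hn hj ha0 ha hJ0 hL0 hJ hL hpq hpn g hg h0 hn'
  have hdeg : Δ.natDegree ≤ q * kappa m n j a J L :=
    generic_deg p m n j a q J L hm hn hj ha0 ha hJ0 hL0 hJ hL hpq hpn g hg
  have hev : ∀ t : ZMod p, Δ.eval t =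
      (hasseWitt p m a (genusPart m n a) (C t * X ^ j + g)).det := by
    intro t
    have h1 := det_map p m a (genusPart m n a) (evalRingHom t)
      (C (X : (ZMod p)[X]) * X ^ j + g.map C)
    have h2 : (C (X : (ZMod p)[X]) * X ^ j + g.map C).map (evalRingHom t) = C t * X ^ j + g := by
      rw [Polynomial.map_add, Polynomial.map_mul, Polynomial.map_pow, map_C, map_X,
        Polynomial.map_map]
      have e : (evalRingHom t).comp C = RingHom.id (ZMod p) := by ext x; simp
      rw [e, Polynomial.map_id]
      simp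
    rw [h2] at h1
    exact h1
  refine le_trans (card_le_card ?_) ((Multiset.toFinset_card_le Δ.roots).trans
    ((card_roots' Δ).trans hdeg))
  intro t ht
  rw [mem_filter] at ht
  rw [Multiset.mem_toFinset, mem_roots hne, IsRoot, hev]
  exact ht.2

open scoped Classical in
theorem card_insep {n j : ℕ} (hn : 2 ≤ n) (hj : j ≤ n) (hpn : n < p) (g : (ZMod p)[X])
    (hg : g.natDegree ≤ n) (h0 : 0 < j → g.coeff 0 ≠ 0) (hn' : j < n → g.coeff n ≠ 0) :
    (univ.filter fun t : ZMod p => ¬ (C t * X ^ j + g).Separable).card ≤ n := by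
  classical
  set K := AlgebraicClosure (ZMod p) with hK
  set h : (ZMod p)[X] := X * derivative g - C (j : ZMod p) * g with hh
  have hjp : 0 < j → (j : ZMod p) ≠ 0 := by
    intro hj0 hz
    rw [ZMod.natCast_eq_zero_iff] at hz
    have := Nat.le_of_dvd hj0 hz
    omega
  have hnp : (n : ZMod p) ≠ 0 := by
    intro hz
    rw [ZMod.natCast_eq_zero_iff] at hz
    have := Nat.le_of_dvd (by omega) hz
    omega
  have hne : h ≠ 0 := by
    intro hz
    rcases Nat.eq_zero_or_pos j with hj0 | hj0
    · have h1 := congrArg (fun P : (ZMod p)[X] => P.coeff n) hz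
      obtain ⟨n', rfl⟩ : ∃ n', n = n' + 1 := ⟨n - 1, by omega⟩
      simp only [hh, hj0, Nat.cast_zero, C_0, zero_mul, sub_zero, coeff_X_mul, coeff_derivative,
        coeff_zero] at h1
      rcases mul_eq_zero.mp h1 with h2 | h2
      · exact hn' (by omega) h2
      · apply hnp
        push_cast
        exact h2
    · have h1 := congrArg (fun P : (ZMod p)[X] => P.coeff 0) hz
      simp only [hh, coeff_sub, mul_coeff_zero, coeff_X_zero, zero_mul, coeff_C_zero, zero_sub,
        coeff_zero, neg_eq_zero] at h1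
      rcases mul_eq_zero.mp h1 with h2 | h2
      · exact hjp hj0 h2
      · exact h0 hj0 h2
  have hhdeg : h.natDegree ≤ n := by
    rw [hh]
    refine (natDegree_sub_le _ _).trans (max_le ?_ ((natDegree_C_mul_le _ _).trans hg))
    rcases Nat.eq_zero_or_pos g.natDegree with hg0 | hg0
    · rw [natDegree_eq_zero.mp hg0 |>.choose_spec.symm, derivative_C, mul_zero, natDegree_zero]
      exact Nat.zero_le _
    · refine natDegree_mul_le.trans ?_
      have h1 := natDegree_derivative_lt hg0.ne'
      rw [natDegree_X]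
      omega
  have hex : ∀ t : ZMod p, ¬ (C t * X ^ j + g).Separable → ∃ α : K, α ∈ (h.map (algebraMap (ZMod p) K)).roots ∧
      algebraMap (ZMod p) K t = - (aeval α g) / α ^ j := by
    intro t ht
    have h1 : ¬ IsCoprime (C t * X ^ j + g) (derivative (C t * X ^ j + g)) := ht
    rw [Polynomial.isCoprime_iff_aeval_ne_zero_of_isAlgClosed (ZMod p) K] at h1
    push Not at h1
    obtain ⟨α, h2, h3⟩ := h1
    have h4 : algebraMap (ZMod p) K t * α ^ j + aeval α g = 0 := by
      simpa using h2
    have hα : α ^ j ≠ 0 := by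
      rcases Nat.eq_zero_or_pos j with hj0 | hj0
      · rw [hj0, pow_zero]
        exact one_ne_zero
      · apply pow_ne_zero
        rintro rfl
        rw [zero_pow hj0.ne', mul_zero, zero_add, ← coeff_zero_eq_aeval_zero'] at h4
        exact h0 hj0 ((algebraMap (ZMod p) K).injective (by rw [h4, map_zero]))
    refine ⟨α, ?_, ?_⟩
    · rw [mem_roots ((Polynomial.map_ne_zero_iff (algebraMap (ZMod p) K).injective).mpr hne), IsRoot,
        eval_map_algebraMap]
      have h5 : h = X * derivative (C t * X ^ j + g) - C (j : ZMod p) * (C t * X ^ j + g) := by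
        rw [hh, derivative_add, derivative_mul, derivative_C, zero_mul, zero_add, derivative_X_pow]
        rcases Nat.eq_zero_or_pos j with hj0 | hj0
        · simp [hj0]
        · obtain ⟨j', rfl⟩ : ∃ j', j = j' + 1 := ⟨j - 1, by omega⟩
          simp only [Nat.add_sub_cancel]
          have : (C ((j' + 1 : ℕ) : ZMod p)) = ((j' + 1 : ℕ) : (ZMod p)[X]) := by simp
          rw [this]
          ring
      rw [h5, map_sub, map_mul, map_mul, h2, h3, mul_zero, mul_zero, sub_zero]
    · rw [eq_div_iff hα]
      linear_combination h4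
  refine le_trans ?_ ((Multiset.toFinset_card_le (h.map (algebraMap (ZMod p) K)).roots).trans
    ((card_roots' _).trans (natDegree_map_le.trans hhdeg)))
  choose! φ hφ1 hφ2 using hex
  refine card_le_card_of_injOn φ ?_ ?_
  · intro t ht
    rw [mem_coe, mem_filter] at ht
    rw [mem_coe, Multiset.mem_toFinset]
    exact hφ1 t ht.2
  · intro t ht t' ht' he
    rw [mem_coe, mem_filter] at ht ht'
    apply (algebraMap (ZMod p) K).injective
    rw [hφ2 t ht.2, hφ2 t' ht'.2, he]

theorem card_degree {n j : ℕ} (hj : j ≤ n) (g : (ZMod p)[X])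
    (hg : g.natDegree ≤ n) (hn' : j < n → g.coeff n ≠ 0) :
    (univ.filter fun t : ZMod p => (C t * X ^ j + g).natDegree ≠ n).card ≤ 1 := by
  classical
  rw [card_le_one]
  have key : ∀ t : ZMod p, (C t * X ^ j + g).natDegree ≠ n → t = - g.coeff n := by
    intro t ht
    by_contra hc
    apply ht
    have hle : (C t * X ^ j + g).natDegree ≤ n :=
      (natDegree_add_le _ _).trans (max_le ((natDegree_C_mul_X_pow_le t j).trans hj) hg)
    apply natDegree_eq_of_le_of_coeff_ne_zero hle
    rw [coeff_add, coeff_C_mul_X_pow]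
    rcases Nat.lt_or_ge j n with h | h
    · rw [if_neg (by omega), zero_add]
      exact hn' h
    · rw [if_pos (by omega)]
      intro hz
      apply hc
      linear_combination hz
  intro t ht t' ht'
  rw [mem_filter] at ht ht'
  rw [key t ht.2, key t' ht'.2]

open scoped Classical in
theorem card_bad {m n j q J L : ℕ}
    (hm : 0 < m) (hn : 2 ≤ n) (hj : j ≤ n) (hJ0 : 0 < J) (hL0 : 0 < L)
    (hJ : 0 < j → J = j) (hL : j < n → L = n - j)
    (hpq : p = m * (J * L * q) + 1) (hpn : n < p) (g : (ZMod p)[X]) (hg : g.natDegree ≤ n)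
    (h0 : 0 < j → g.coeff 0 ≠ 0) (hn' : j < n → g.coeff n ≠ 0) :
    (univ.filter fun t : ZMod p => ¬ GoodOrd p m n (C t * X ^ j + g)).card ≤
      q * kappaTot m n j J L + (n + 1) := by
  classical
  have hsub : (univ.filter fun t : ZMod p => ¬ GoodOrd p m n (C t * X ^ j + g)) ⊆
      (((Ioo 0 m).biUnion fun a => univ.filter fun t : ZMod p =>
        (hasseWitt p m a (genusPart m n a) (C t * X ^ j + g)).det = 0) ∪
      (univ.filter fun t : ZMod p => ¬ (C t * X ^ j + g).Separable)) ∪
      (univ.filter fun t : ZMod p => (C t * X ^ j + g).natDegree ≠ n) := by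
    intro t ht
    rw [mem_filter] at ht
    by_contra hc
    apply ht.2
    simp only [mem_union, mem_biUnion, mem_filter, mem_univ, true_and, not_or, not_exists, not_and,
      not_not, mem_Ioo] at hc
    exact ⟨hc.2, hc.1.2, fun a h1 h2 => hc.1.1 a ⟨h1, h2⟩⟩
  refine (card_le_card hsub).trans ((card_union_le _ _).trans ?_)
  have h1 := card_degree hj g hg hn'
  have h2 := card_insep hn hj hpn g hg h0 hn'
  have h3 : ((Ioo 0 m).biUnion fun a => univ.filter fun t : ZMod p =>
        (hasseWitt p m a (genusPart m n a) (C t * X ^ j + g)).det = 0).card ≤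
      q * kappaTot m n j J L := by
    refine card_biUnion_le.trans ?_
    unfold kappaTot
    rw [mul_sum]
    apply sum_le_sum
    intro a ha
    rw [mem_Ioo] at ha
    exact card_zero hm hn hj hJ0 hL0 hJ hL hpq hpn.le g hg h0 hn' a ha.1 ha.2
  have h4 := card_union_le ((Ioo 0 m).biUnion fun a => univ.filter fun t : ZMod p =>
        (hasseWitt p m a (genusPart m n a) (C t * X ^ j + g)).det = 0)
      (univ.filter fun t : ZMod p => ¬ (C t * X ^ j + g).Separable)
  omega

end

end Pool.Agent.Q205.HWc
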