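import Pool.Agent.Q205.HWc.Generic

/-! The degrees of the Hasse-Witt determinants of `y ^ m = g (x) + t x ^ j` as polynomials in `t`. -/

set_option autoImplicit false

namespace Pool.Agent.Q205.HWc

open Polynomial

/-- the bound for the degree of the determinant, from the weights -/
theorem det_natDegree_le {K : Type*} [Field K] {g : ℕ} (h : Matrix (Fin g) (Fin g) K[X])
    (α β : Fin g → ℤ) (N : ℤ) (r : Fin g → ℕ)
    (hdiag : ∀ i, N * (r i : ℤ) = α i + β i) (hle : ∀ i, (h i i).natDegree ≤ r i) (hN : 0 < N)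
    (hoff : ∀ i l, i ≠ l → h i l = 0 ∨ N * ((h i l).natDegree : ℤ) < α i + β l) :
    h.det.natDegree ≤ ∑ i, r i := by
  classical
  rw [Matrix.det_apply]
  apply natDegree_sum_le_of_forall_le
  intro π _
  refine (natDegree_smul_le _ _).trans ?_
  by_cases hzero : ∃ i, h (π i) i = 0
  · obtain ⟨i, hi⟩ := hzero
    have : ∏ i, h (π i) i = 0 := Finset.prod_eq_zero (Finset.mem_univ i) hi
    rw [this, natDegree_zero]
    exact Nat.zero_le _
  · push Not at hzero
    have hw : ∀ i, N * ((h (π i) i).natDegree : ℤ) ≤ α (π i) + β i := by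
      intro i
      by_cases hi : π i = i
      · rw [hi, ← hdiag i]
        have := hle i
        have h3 : ((h i i).natDegree : ℤ) ≤ (r i : ℤ) := by exact_mod_cast this
        exact mul_le_mul_of_nonneg_left h3 hN.le
      · rcases hoff (π i) i hi with h3 | h3
        · exact absurd h3 (hzero i)
        · exact h3.le
    have hsum : ∑ i, N * ((h (π i) i).natDegree : ℤ) ≤ ∑ i, (α (π i) + β i) :=
      Finset.sum_le_sum (fun i _ => hw i)
    have e1 : ∑ i, (α (π i) + β i) = ∑ i, (α i + β i) := by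
      rw [Finset.sum_add_distrib, Finset.sum_add_distrib, Equiv.sum_comp π α]
    have e2 : ∑ i, (α i + β i) = N * ∑ i, (r i : ℤ) := by
      rw [Finset.mul_sum]
      exact Finset.sum_congr rfl fun i _ => (hdiag i).symm
    rw [e1, e2, ← Finset.mul_sum] at hsum
    have h4 : ∑ i, ((h (π i) i).natDegree : ℤ) ≤ ∑ i, (r i : ℤ) := le_of_mul_le_mul_left hsum hN
    have h5 : ∑ i, (h (π i) i).natDegree ≤ ∑ i, r i := by exact_mod_cast h4
    exact (natDegree_prod_le _ _).trans h5

/-- the degree of the determinant of the block with the index `a` is at most `q` times this number, for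
`p = m J L q + 1` -/
def kappa (m n j a J L : ℕ) : ℕ :=
  ∑ i : Fin (genusPart m n a), (if ((i : ℕ) + 1) * m ≤ j * a then ((i : ℕ) + 1) * m * L
    else J * (n * a - ((i : ℕ) + 1) * m))

theorem generic_deg {K : Type*} [Field K] (p : ℕ) [Fact p.Prime] [CharP K p] (m n j a q J L : ℕ)
    (hm : 0 < m) (hn : 2 ≤ n) (hj : j ≤ n) (ha0 : 0 < a) (ha : a < m) (hJ0 : 0 < J) (hL0 : 0 < L)
    (hJ : 0 < j → J = j) (hL : j < n → L = n - j)
    (hp : p = m * (J * L * q) + 1) (hpn : n ≤ p) (g : K[X]) (hg : g.natDegree ≤ n)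
    :
    (hasseWitt p m a (genusPart m n a) (C (X : K[X]) * X ^ j + g.map C)).det.natDegree ≤
      q * kappa m n j a J L := by
  classical
  set gg := genusPart m n a with hgg
  set M : ℕ := a * (J * L * q) with hM
  have hMq : a * ((p - 1) / m) = M := by
    rw [hp, Nat.add_sub_cancel, Nat.mul_div_cancel_left _ hm]
  have hMp : M < p := by
    rw [hp, hM]
    have : a * (J * L * q) ≤ m * (J * L * q) := Nat.mul_le_mul_right _ ha.le
    omega
  have hna : 0 < n * a := Nat.mul_pos (by omega) ha0
  -- the indices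
  have hidx : ∀ i : Fin gg, ((i : ℕ) + 1) * m < n * a := by
    intro i
    have h1 : (i : ℕ) + 1 ≤ (n * a - 1) / m := i.2
    rw [Nat.le_div_iff_mul_le hm] at h1
    omega
  have hidx2 : ∀ i : Fin gg, (i : ℕ) + 1 < n := by
    intro i
    have h1 := hidx i
    have h2 : n * a ≤ n * m := Nat.mul_le_mul_left _ ha.le
    by_contra hc
    have h3 : n * m ≤ ((i : ℕ) + 1) * m := Nat.mul_le_mul_right _ (by omega)
    omega
  have hlp : ∀ i l : Fin gg, (l : ℕ) + 1 ≤ p * ((i : ℕ) + 1) := by
    intro i l
    have h1 := hidx2 l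
    have h2 : p ≤ p * ((i : ℕ) + 1) := Nat.le_mul_of_pos_right _ (Nat.succ_pos _)
    omega
  have happ : ∀ i l : Fin gg, hasseWitt p m a gg (C (X : K[X]) * X ^ j + g.map C) i l =
      ((C (X : K[X]) * X ^ j + g.map C) ^ M).coeff (p * ((i : ℕ) + 1) - ((l : ℕ) + 1)) := by
    intro i l
    rw [hasseWitt_apply p m a gg _ i l (hlp i l), hMq]
  have hsupp : ∀ (i l : Fin gg) (r : ℕ),
      (hasseWitt p m a gg (C (X : K[X]) * X ^ j + g.map C) i l).coeff r ≠ 0 →
      (r : ℤ) ≤ M ∧ (j : ℤ) * r ≤ (m * (J * L * q) + 1) * ((i : ℤ) + 1) - ((l : ℤ) + 1) ∧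
      ((n : ℤ) - j) * r ≤ n * M - ((m * (J * L * q) + 1) * ((i : ℤ) + 1) - ((l : ℤ) + 1)) := by
    intro i l r hr
    rw [happ] at hr
    obtain ⟨h1, h2, h3⟩ := support_entry g n j M _ r hg hr
    have he : ((p * ((i : ℕ) + 1) - ((l : ℕ) + 1) : ℕ) : ℤ) =
        (m * (J * L * q) + 1) * ((i : ℤ) + 1) - ((l : ℤ) + 1) := by
      rw [Nat.cast_sub (hlp i l), hp]
      push_cast
      ring
    have h2' : ((j * r : ℕ) : ℤ) ≤ ((p * ((i : ℕ) + 1) - ((l : ℕ) + 1) : ℕ) : ℤ) := by exact_mod_cast h2
    have h3' : ((p * ((i : ℕ) + 1) - ((l : ℕ) + 1) - j * r : ℕ) : ℤ) ≤ ((n * (M - r) : ℕ) : ℤ) := by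
      exact_mod_cast h3
    rw [Nat.cast_sub h2, he] at h3'
    rw [he] at h2'
    push_cast [Nat.cast_sub h1] at h2' h3'
    refine ⟨by exact_mod_cast h1, h2', ?_⟩
    nlinarith
  -- the weights
  set i0 : ℕ := j * a / m with hi0
  have hB1 : ∀ i : Fin gg, ((i : ℕ) + 1) * m ≤ j * a ↔ (i : ℕ) + 1 ≤ i0 := by
    intro i
    rw [hi0, Nat.le_div_iff_mul_le hm]
  let c : ℤ := n * i0 + 1
  let α : Fin gg → ℤ := fun i => if ((i : ℕ) + 1) * m ≤ j * a then
      (L : ℤ) * ((m * (J * L * q) + 1) * ((i : ℤ) + 1))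
    else (J : ℤ) * (n * M - (m * (J * L * q) + 1) * ((i : ℤ) + 1)) + c
  let β : Fin gg → ℤ := fun l => if ((l : ℕ) + 1) * m ≤ j * a then -((L : ℤ) * ((l : ℤ) + 1))
    else (J : ℤ) * ((l : ℤ) + 1) - c
  let r : Fin gg → ℕ := fun i => if ((i : ℕ) + 1) * m ≤ j * a then ((i : ℕ) + 1) * m * (L * q)
    else J * q * (n * a - ((i : ℕ) + 1) * m)
  have hα1 : ∀ i : Fin gg, ((i : ℕ) + 1) * m ≤ j * a → α i =
      (L : ℤ) * ((m * (J * L * q) + 1) * ((i : ℤ) + 1)) := fun i h => if_pos h
  have hα2 : ∀ i : Fin gg, ¬ ((i : ℕ) + 1) * m ≤ j * a → α i =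
      (J : ℤ) * (n * M - (m * (J * L * q) + 1) * ((i : ℤ) + 1)) + c := fun i h => if_neg h
  have hβ1 : ∀ i : Fin gg, ((i : ℕ) + 1) * m ≤ j * a → β i =
      -((L : ℤ) * ((i : ℤ) + 1)) := fun i h => if_pos h
  have hβ2 : ∀ i : Fin gg, ¬ ((i : ℕ) + 1) * m ≤ j * a → β i =
      (J : ℤ) * ((i : ℤ) + 1) - c := fun i h => if_neg h
  have hr1 : ∀ i : Fin gg, ((i : ℕ) + 1) * m ≤ j * a → r i =
      ((i : ℕ) + 1) * m * (L * q) := fun i h => if_pos h
  have hr2 : ∀ i : Fin gg, ¬ ((i : ℕ) + 1) * m ≤ j * a → r i =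
      J * q * (n * a - ((i : ℕ) + 1) * m) := fun i h => if_neg h
  have hr2' : ∀ i : Fin gg, ¬ ((i : ℕ) + 1) * m ≤ j * a → (r i : ℤ) =
      J * q * (n * a - ((i : ℤ) + 1) * m) := by
    intro i h
    rw [hr2 i h]
    push_cast [Nat.cast_sub (hidx i).le]
    ring
  -- consequences of the cases
  have hc1 : ∀ i : Fin gg, ((i : ℕ) + 1) * m ≤ j * a → 0 < j := by
    intro i h
    rcases Nat.eq_zero_or_pos j with h1 | h1
    · rw [h1, zero_mul] at h
      have : 0 < ((i : ℕ) + 1) * m := Nat.mul_pos (Nat.succ_pos _) hm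
      omega
    · exact h1
  have hc2 : ∀ i : Fin gg, ¬ ((i : ℕ) + 1) * m ≤ j * a → j < n := by
    intro i h
    rcases Nat.lt_or_ge j n with h1 | h1
    · exact h1
    · exfalso
      have h2 : j = n := le_antisymm hj h1
      have := hidx i
      rw [h2] at h
      omega
  have hJz : (0 : ℤ) < J := by exact_mod_cast hJ0
  have hLz : (0 : ℤ) < L := by exact_mod_cast hL0
  have hMz : (M : ℤ) = a * (J * L * q) := by rw [hM]; push_cast; ring
  have hrM : ∀ i, r i ≤ M := by
    intro i
    by_cases h : ((i : ℕ) + 1) * m ≤ j * a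
    · rw [hr1 i h, hM]
      have hj0 := hc1 i h
      calc ((i : ℕ) + 1) * m * (L * q) ≤ j * a * (L * q) := Nat.mul_le_mul_right _ h
        _ = a * (J * L * q) := by rw [hJ hj0]; ring
    · rw [hr2 i h, hM]
      have hjn := hc2 i h
      have h1 : n * a - ((i : ℕ) + 1) * m ≤ a * L := by
        rw [hL hjn]
        have h2 : n * a = j * a + a * (n - j) := by
          obtain ⟨d, hd⟩ := Nat.exists_eq_add_of_le hj
          rw [hd, Nat.add_sub_cancel_left]
          ring
        omega
      calc J * q * (n * a - ((i : ℕ) + 1) * m) ≤ J * q * (a * L) := Nat.mul_le_mul_left _ h1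
        _ = a * (J * L * q) := by ring
  have hrsum : ∑ i, r i = q * kappa m n j a J L := by
    unfold kappa
    rw [Finset.mul_sum]
    apply Finset.sum_congr rfl
    intro i _
    by_cases h : ((i : ℕ) + 1) * m ≤ j * a
    · rw [hr1 i h, if_pos h]
      ring
    · rw [hr2 i h, if_neg h]
      ring
  rw [← hrsum]
  apply det_natDegree_le _ α β ((J : ℤ) * L) r
  · -- diagonal weights
    intro i
    by_cases h : ((i : ℕ) + 1) * m ≤ j * a
    · rw [hα1 i h, hβ1 i h, hr1 i h]
      push_cast
      ring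
    · rw [hα2 i h, hβ2 i h, hr2' i h, hMz]
      ring
  · -- degrees on the diagonal
    intro i
    by_contra hcon
    rw [not_le] at hcon
    have hne : hasseWitt p m a gg (C (X : K[X]) * X ^ j + g.map C) i i ≠ 0 := by
      intro hz
      rw [hz, natDegree_zero] at hcon
      omega
    obtain ⟨h1, h2, h3⟩ := hsupp i i _ (leadingCoeff_ne_zero.mpr hne)
    set d := (hasseWitt p m a gg (C (X : K[X]) * X ^ j + g.map C) i i).natDegree with hd
    have hdz : (r i : ℤ) < d := by exact_mod_cast hcon
    by_cases h : ((i : ℕ) + 1) * m ≤ j * a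
    · have hj0 := hc1 i h
      have hJj : (J : ℤ) = j := by rw [hJ hj0]
      rw [← hJj] at h2
      have e : (J : ℤ) * (r i : ℤ) = m * (J * L * q) * ((i : ℤ) + 1) := by
        rw [hr1 i h]
        push_cast
        ring
      nlinarith
    · have hjn := hc2 i h
      have hLn : (L : ℤ) = n - j := by
        rw [hL hjn, Nat.cast_sub hj]
      rw [← hLn] at h3
      have e : (L : ℤ) * (r i : ℤ) = n * M - m * (J * L * q) * ((i : ℤ) + 1) := by
        rw [hr2' i h, hMz]
        ring
      nlinarith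
  · positivity
  · -- off the diagonal
    intro i l hil
    by_cases hz : hasseWitt p m a gg (C (X : K[X]) * X ^ j + g.map C) i l = 0
    · exact Or.inl hz
    · right
      obtain ⟨h1, h2, h3⟩ := hsupp i l _ (leadingCoeff_ne_zero.mpr hz)
      set d := (hasseWitt p m a gg (C (X : K[X]) * X ^ j + g.map C) i l).natDegree with hd
      have hilz : ((i : ℤ) - l) ≠ 0 := by
        intro h
        apply hil
        apply Fin.ext
        have : (i : ℤ) = l := by linarith
        exact_mod_cast this
      by_cases hi : ((i : ℕ) + 1) * m ≤ j * a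
      · have hj0 := hc1 i hi
        have hJj : (J : ℤ) = j := by rw [hJ hj0]
        rw [← hJj] at h2
        by_cases hl : ((l : ℕ) + 1) * m ≤ j * a
        · rw [hα1 i hi, hβ1 l hl]
          have hne : (J : ℤ) * d ≠ (m * (J * L * q) + 1) * ((i : ℤ) + 1) - ((l : ℤ) + 1) := by
            intro heq
            have hdvd : (J : ℤ) ∣ (i : ℤ) - l := by
              refine ⟨(d : ℤ) - m * (L * q) * ((i : ℤ) + 1), ?_⟩
              linear_combination -heq
            have hlt : ∀ x : Fin gg, ((x : ℕ) + 1) * m ≤ j * a → (x : ℕ) + 1 < j := by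
              intro x hx
              by_contra hc
              have h4 : j * m ≤ ((x : ℕ) + 1) * m := Nat.mul_le_mul_right _ (by omega)
              have h5 : j * a < j * m := Nat.mul_lt_mul_of_pos_left ha hj0
              omega
            have h6 := hlt i hi
            have h7 := hlt l hl
            have habs : |(i : ℤ) - l| < J := by
              rw [abs_lt, hJj]
              constructor <;> omega
            exact hilz (Int.eq_zero_of_abs_lt_dvd hdvd habs)
          have h4 : (J : ℤ) * d < (m * (J * L * q) + 1) * ((i : ℤ) + 1) - ((l : ℤ) + 1) :=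
            lt_of_le_of_ne h2 hne
          have h5 := mul_lt_mul_of_pos_left h4 hLz
          linarith [h5]
        · rw [hα1 i hi, hβ2 l hl]
          have hjn := hc2 l hl
          have hLn : (L : ℤ) = n - j := by rw [hL hjn, Nat.cast_sub hj]
          have h4 : i0 + 1 ≤ (l : ℕ) + 1 := by
            have := (hB1 l).not.mp hl
            omega
          have h5 : (i0 : ℤ) + 1 ≤ (l : ℤ) + 1 := by exact_mod_cast h4
          have h6 := mul_le_mul_of_nonneg_left h2 hLz.le
          have h7 : c < n * ((l : ℤ) + 1) := by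
            have h8 : (2 : ℤ) ≤ n := by exact_mod_cast hn
            change (n : ℤ) * i0 + 1 < n * ((l : ℤ) + 1)
            nlinarith
          have h8 : (n : ℤ) = L + J := by rw [hLn, hJj]; ring
          rw [h8] at h7
          linarith [h6, h7]
      · have hjn := hc2 i hi
        have hLn : (L : ℤ) = n - j := by rw [hL hjn, Nat.cast_sub hj]
        rw [← hLn] at h3
        by_cases hl : ((l : ℕ) + 1) * m ≤ j * a
        · rw [hα2 i hi, hβ1 l hl]
          have hj0 := hc1 l hl
          have hJj : (J : ℤ) = j := by rw [hJ hj0]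
          have h4 : (l : ℕ) + 1 ≤ i0 := (hB1 l).mp hl
          have h5 : (l : ℤ) + 1 ≤ i0 := by exact_mod_cast h4
          have h6 := mul_le_mul_of_nonneg_left h3 hJz.le
          have h7 : n * ((l : ℤ) + 1) < c := by
            change n * ((l : ℤ) + 1) < (n : ℤ) * i0 + 1
            have h8 : (0 : ℤ) ≤ n := by positivity
            nlinarith
          have h8 : (n : ℤ) = L + J := by rw [hLn, hJj]; ring
          rw [h8] at h7
          linarith [h6, h7]
        · rw [hα2 i hi, hβ2 l hl]
          have hne : (L : ℤ) * d ≠ n * M - ((m * (J * L * q) + 1) * ((i : ℤ) + 1) - ((l : ℤ) + 1)) := by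
            intro heq
            have hdvd : (L : ℤ) ∣ (i : ℤ) - l := by
              refine ⟨n * (a * (J * q)) - (d : ℤ) - m * (J * q) * ((i : ℤ) + 1), ?_⟩
              rw [hMz] at heq
              linear_combination heq
            have hab : ∀ x y : Fin gg, ¬ ((y : ℕ) + 1) * m ≤ j * a → (x : ℤ) - y < L := by
              intro x y hy
              by_contra hc
              rw [not_lt] at hc
              have h4 : (((x : ℕ) + 1) * m : ℤ) < n * a := by exact_mod_cast hidx x
              have h5 : (j : ℤ) * a < ((y : ℤ) + 1) * m := by exact_mod_cast not_le.mp hy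
              have h6 : (a : ℤ) < m := by exact_mod_cast ha
              have h7 : (L : ℤ) * m ≤ ((x : ℤ) - y) * m :=
                mul_le_mul_of_nonneg_right hc (by positivity)
              have h8 : (L : ℤ) * a < L * m := mul_lt_mul_of_pos_left h6 hLz
              rw [hLn] at h7 h8
              nlinarith
            have habs : |(i : ℤ) - l| < L := by
              rw [abs_lt]
              have h4 := hab i l hl
              have h5 := hab l i hi
              constructor <;> linarith
            exact hilz (Int.eq_zero_of_abs_lt_dvd hdvd habs)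
          have h4 : (L : ℤ) * d < n * M - ((m * (J * L * q) + 1) * ((i : ℤ) + 1) - ((l : ℤ) + 1)) :=
            lt_of_le_of_ne h3 hne
          have h5 := mul_lt_mul_of_pos_left h4 hJz
          linarith [h5]


end Pool.Agent.Q205.HWc
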