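import Mathlib

/-! Determinants of matrices of polynomials, with weights. -/

set_option autoImplicit false

namespace Pool.Agent.Q205.HWc

open Polynomial

/-- Let `N * deg (h i l) ≤ α i + β l` with strict inequality outside the diagonal and equality on the
diagonal. Then the determinant is not zero. -/
theorem det_ne_zero {K : Type*} [Field K] {g : ℕ} (h : Matrix (Fin g) (Fin g) K[X])
    (α β : Fin g → ℤ) (N : ℤ) (r : Fin g → ℕ)
    (hdiag : ∀ i, N * (r i : ℤ) = α i + β i) (hle : ∀ i, (h i i).natDegree ≤ r i)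
    (hc : ∀ i, (h i i).coeff (r i) ≠ 0) (hN : 0 < N)
    (hoff : ∀ i l, i ≠ l → h i l = 0 ∨ N * ((h i l).natDegree : ℤ) < α i + β l) : h.det ≠ 0 := by
  classical
  have hprod : ∀ s : Finset (Fin g), (∏ i ∈ s, h i i).natDegree ≤ ∑ i ∈ s, r i ∧
      (∏ i ∈ s, h i i).coeff (∑ i ∈ s, r i) = ∏ i ∈ s, (h i i).coeff (r i) := by
    intro s
    induction s using Finset.induction_on with
    | empty => simp
    | insert a s ha ih =>
      rw [Finset.prod_insert ha, Finset.sum_insert ha, Finset.prod_insert ha]
      refine ⟨natDegree_mul_le.trans (add_le_add (hle a) ih.1), ?_⟩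
      rw [coeff_mul_add_eq_of_natDegree_le (hle a) ih.1, ih.2]
  intro h0
  have h1 := congrArg (fun P : K[X] => P.coeff (∑ i, r i)) h0
  simp only [coeff_zero] at h1
  rw [Matrix.det_apply, finsetSum_coeff, Finset.sum_eq_single (1 : Equiv.Perm (Fin g))] at h1
  · rw [Equiv.Perm.sign_one, one_smul] at h1
    have h2 := (hprod Finset.univ).2
    simp only [Equiv.Perm.one_apply] at h1
    rw [h1] at h2
    exact (Finset.prod_ne_zero_iff.mpr fun i _ => hc i) h2.symm
  · intro π _ hπ
    rw [coeff_smul]
    suffices hz : (∏ i, h (π i) i).coeff (∑ i, r i) = 0 by rw [hz, smul_zero]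
    by_cases hzero : ∃ i, h (π i) i = 0
    · obtain ⟨i, hi⟩ := hzero
      have : ∏ i, h (π i) i = 0 := Finset.prod_eq_zero (Finset.mem_univ i) hi
      rw [this, coeff_zero]
    · push Not at hzero
      apply coeff_eq_zero_of_natDegree_lt
      have hw : ∀ i, N * ((h (π i) i).natDegree : ℤ) ≤ α (π i) + β i := by
        intro i
        by_cases hi : π i = i
        · rw [hi, ← hdiag i]
          have := hle i
          have h3 : ((h i i).natDegree : ℤ) ≤ (r i : ℤ) := by exact_mod_cast this
          exact mul_le_mul_of_nonneg_left h3 hN.le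
        · rcases hoff (π i) i hi with h3 | h3
          · exact absurd h3 (hzero i)
          · exact h3.le
      obtain ⟨i₀, hi₀⟩ : ∃ i, π i ≠ i := by
        by_contra hcon
        push Not at hcon
        exact hπ (Equiv.ext hcon)
      have hstrict : N * ((h (π i₀) i₀).natDegree : ℤ) < α (π i₀) + β i₀ := by
        rcases hoff (π i₀) i₀ hi₀ with h3 | h3
        · exact absurd h3 (hzero i₀)
        · exact h3
      have hsum : ∑ i, N * ((h (π i) i).natDegree : ℤ) < ∑ i, (α (π i) + β i) :=
        Finset.sum_lt_sum (fun i _ => hw i) ⟨i₀, Finset.mem_univ _, hstrict⟩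
      have e1 : ∑ i, (α (π i) + β i) = ∑ i, (α i + β i) := by
        rw [Finset.sum_add_distrib, Finset.sum_add_distrib, Equiv.sum_comp π α]
      have e2 : ∑ i, (α i + β i) = N * ∑ i, (r i : ℤ) := by
        rw [Finset.mul_sum]
        exact Finset.sum_congr rfl fun i _ => (hdiag i).symm
      rw [e1, e2, ← Finset.mul_sum] at hsum
      have h4 : ∑ i, ((h (π i) i).natDegree : ℤ) < ∑ i, (r i : ℤ) := lt_of_mul_lt_mul_left hsum hN.le
      have h5 : ∑ i, (h (π i) i).natDegree < ∑ i, r i := by exact_mod_cast h4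
      exact lt_of_le_of_lt (natDegree_prod_le _ _) h5
  · intro h3
    exact absurd (Finset.mem_univ _) h3

end Pool.Agent.Q205.HWc
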