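import Pool.Agent.Q205.HWc.Det

/-! The Hasse-Witt matrices of `y ^ m = g (x) + t x ^ j` as polynomials in `t`. -/

set_option autoImplicit false

namespace Pool.Agent.Q205.HWc

open Polynomial

/-- The block with the index `a` of the Hasse-Witt (Cartier-Manin) matrix of `y ^ m = f (x)`, in
characteristic `p` with `m` dividing `p - 1`: the entry with the indices `i`, `l` (from `0`) is the
coefficient of `x ^ (p (i + 1) - (l + 1))` in `f ^ (a (p - 1) / m)`. -/
noncomputable def hasseWitt {R : Type*} [CommRing R] (p m a g : ℕ) (f : R[X]) :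
    Matrix (Fin g) (Fin g) R :=
  Matrix.of fun i l => (X ^ ((l : ℕ) + 1) * f ^ (a * ((p - 1) / m))).coeff (p * ((i : ℕ) + 1))

/-- the number of the `l ≥ 1` with `m l < n a`: the number of the holomorphic differentials
`x ^ (l - 1) dx / y ^ a` on `y ^ m = f (x)`, for `f` squarefree of degree `n` -/
def genusPart (m n a : ℕ) : ℕ := (n * a - 1) / m

variable {R : Type*} [CommRing R]

theorem coeff_pow (g : R[X]) (j M e r : ℕ) :
    (((C (X : R[X]) * X ^ j + g.map C) ^ M).coeff e).coeff r =
      (M.choose r : R) * (if j * r ≤ e then (g ^ (M - r)).coeff (e - j * r) else 0) := by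
  rw [add_pow, finsetSum_coeff, finsetSum_coeff]
  have hterm : ∀ s : ℕ, (((C (X : R[X]) * X ^ j) ^ s * (g.map C) ^ (M - s) *
      ((M.choose s : ℕ) : R[X][X])).coeff e).coeff r =
      if s = r then (M.choose r : R) * (if j * r ≤ e then (g ^ (M - r)).coeff (e - j * r) else 0)
      else 0 := by
    intro s
    have e1 : ((C (X : R[X]) * X ^ j) ^ s * (g.map C) ^ (M - s) * ((M.choose s : ℕ) : R[X][X])) =
        C ((X : R[X]) ^ s * C ((M.choose s : ℕ) : R)) * (X ^ (j * s) * (g ^ (M - s)).map C) := by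
      rw [mul_pow, ← C_pow, ← pow_mul, Polynomial.map_pow, C_mul]
      have : (C (C ((M.choose s : ℕ) : R)) : R[X][X]) = ((M.choose s : ℕ) : R[X][X]) := by
        simp
      rw [this]
      ring
    rw [e1, coeff_C_mul, coeff_X_pow_mul']
    have e2 : (if j * s ≤ e then ((g ^ (M - s)).map C).coeff (e - j * s) else (0 : R[X])) =
        C (if j * s ≤ e then (g ^ (M - s)).coeff (e - j * s) else 0) := by
      split_ifs
      · rw [coeff_map]
      · rw [C_0]
    rw [e2, mul_assoc, ← C_mul, coeff_mul_C, coeff_X_pow]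
    by_cases hs : s = r
    · subst hs
      rw [if_pos rfl, if_pos rfl, one_mul]
    · rw [if_neg hs, if_neg (Ne.symm hs), zero_mul]
  simp only [hterm]
  rw [Finset.sum_ite_eq']
  by_cases hr : r ∈ Finset.range (M + 1)
  · rw [if_pos hr]
  · rw [if_neg hr]
    have : M < r := by
      rw [Finset.mem_range] at hr
      omega
    rw [Nat.choose_eq_zero_of_lt this]
    simp

theorem hasseWitt_apply (p m a gg : ℕ) (f : R[X]) (i l : Fin gg)
    (hl : (l : ℕ) + 1 ≤ p * ((i : ℕ) + 1)) : hasseWitt p m a gg f i l =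
      (f ^ (a * ((p - 1) / m))).coeff (p * ((i : ℕ) + 1) - ((l : ℕ) + 1)) := by
  unfold hasseWitt
  rw [Matrix.of_apply, coeff_X_pow_mul', if_pos hl]

/-- the support of an entry -/
theorem support_entry [Nontrivial R] (g : R[X]) (n j M e r : ℕ) (hg : g.natDegree ≤ n)
    (h : (((C (X : R[X]) * X ^ j + g.map C) ^ M).coeff e).coeff r ≠ 0) :
    r ≤ M ∧ j * r ≤ e ∧ e - j * r ≤ n * (M - r) := by
  rw [coeff_pow] at h
  have h1 : r ≤ M := by
    by_contra hc
    apply h
    rw [Nat.choose_eq_zero_of_lt (not_le.mp hc)]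
    simp
  have h2 : j * r ≤ e := by
    by_contra hc
    apply h
    rw [if_neg hc, mul_zero]
  refine ⟨h1, h2, ?_⟩
  by_contra hc
  apply h
  rw [if_pos h2, coeff_eq_zero_of_natDegree_lt, mul_zero]
  refine lt_of_le_of_lt (natDegree_pow_le_of_le (M - r) hg) ?_
  rw [mul_comm]
  omega

end Pool.Agent.Q205.HWc
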